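import Pool.Agent.D0H95.BF.Stm7

/-! Project BF, module AFL: the flow of a Lipschitz field is analytic in the initial condition along the
orbits on which the field is analytic. -/

set_option autoImplicit false

open Filter Topology Set
open scoped ContDiff

namespace Pool.Agent.D0H17.BF

open Pool.Agent.GR.Flow Pool.Agent.D0H95.BF

section

variable {E : Type} [NormedAddCommGroup E] [NormedSpace ℝ E] [CompleteSpace E]

/-- analyticity of the operator of the integral equation -/
theorem contDiffAt_Phi (hN : S_NEM) (X : C(E, E)) {z : E} (hz : AnalyticAt ℝ X z) (τ : ℝ) (x : E) :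
    ContDiffAt ℝ ω (Phi X) ((τ, x), ContinuousMap.const unitInterval z) := by
  unfold Phi
  have h0 : ContDiffAt ℝ ω (fun u : C(unitInterval, E) => X.comp u)
      (ContinuousMap.const unitInterval z) := (hN E X z hz).contDiffAt
  have h1 : ContDiffAt ℝ ω (fun u : (ℝ × E) × C(unitInterval, E) => X.comp u.2)
      ((τ, x), ContinuousMap.const unitInterval z) :=
    ContDiffAt.comp (g := fun u : C(unitInterval, E) => X.comp u)
      (f := fun u : (ℝ × E) × C(unitInterval, E) => u.2) _ h0 contDiffAt_snd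
  have h2 : ContDiffAt ℝ ω (fun u : (ℝ × E) × C(unitInterval, E) => volt E (X.comp u.2))
      ((τ, x), ContinuousMap.const unitInterval z) :=
    ContDiffAt.comp (g := volt E) _ (ContinuousLinearMap.contDiff _).contDiffAt h1
  have h3 : ContDiffAt ℝ ω (fun u : (ℝ × E) × C(unitInterval, E) => cst E u.1.2)
      ((τ, x), ContinuousMap.const unitInterval z) :=
    ContDiffAt.comp (g := cst E) _ (ContinuousLinearMap.contDiff _).contDiffAt
      (contDiff_snd.comp contDiff_fst).contDiffAt
  exact (contDiffAt_snd.sub h3).sub ((contDiff_fst.comp contDiff_fst).contDiffAt.smul h2)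

theorem Phi_inv (hN : S_NEM) (X : C(E, E)) {z : E} (hz : AnalyticAt ℝ X z) :
    (fderiv ℝ (Phi X) ((0, z), ContinuousMap.const unitInterval z) ∘L
      .inr ℝ (ℝ × E) C(unitInterval, E)).IsInvertible := by
  have h1 : HasFDerivAt (fun β => Phi X (((0 : ℝ), z), β))
      (ContinuousLinearMap.id ℝ C(unitInterval, E)) (ContinuousMap.const unitInterval z) := by
    have h := (hasFDerivAt_id (𝕜 := ℝ) (ContinuousMap.const unitInterval z :
      C(unitInterval, E))).sub_const (cst E z)
    refine h.congr_of_eventuallyEq (Eventually.of_forall fun β => ?_)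
    unfold Phi
    simp
  have h2 : HasFDerivAt (Phi X) (fderiv ℝ (Phi X) ((0, z), ContinuousMap.const unitInterval z))
      ((0, z), ContinuousMap.const unitInterval z) :=
    ((contDiffAt_Phi hN X hz 0 z).differentiableAt (by simp)).hasFDerivAt
  have h3 : HasFDerivAt (fun β => Phi X (((0 : ℝ), z), β))
      (fderiv ℝ (Phi X) ((0, z), ContinuousMap.const unitInterval z) ∘L
        .inr ℝ (ℝ × E) C(unitInterval, E)) (ContinuousMap.const unitInterval z) :=
    HasFDerivAt.comp (g := Phi X) _ h2 (hasFDerivAt_prodMk_right _ _)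
  rw [h3.unique h1]
  exact ⟨ContinuousLinearEquiv.refl ℝ _, rfl⟩

omit [CompleteSpace E] in
theorem seg_zero {X : C(E, E)} {g : ℝ → E → E} (hg : IsFlowOf X g) (z : E) :
    seg hg ((0 : ℝ), z) = ContinuousMap.const unitInterval z := by
  ext s
  rw [seg_apply]
  simp only [zero_mul, ContinuousMap.const_apply]
  exact hg.zero z

theorem contDiffAt_seg0 (hN : S_NEM) {X : C(E, E)} {K : NNReal} (hK : LipschitzWith K X)
    {g : ℝ → E → E} (hg : IsFlowOf X g) {z : E} (hz : AnalyticAt ℝ X z) :
    ContDiffAt ℝ ω (seg hg) ((0 : ℝ), z) := by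
  have hm : (ω : WithTop ℕ∞) ≠ 0 := by simp
  have cdf : ContDiffAt ℝ ω (Phi X) (((0 : ℝ), z), seg hg ((0 : ℝ), z)) := by
    rw [seg_zero hg z]
    exact contDiffAt_Phi hN X hz 0 z
  have hinv : (fderiv ℝ (Phi X) (((0 : ℝ), z), seg hg ((0 : ℝ), z)) ∘L
      .inr ℝ (ℝ × E) C(unitInterval, E)).IsInvertible := by
    rw [seg_zero hg z]
    exact Phi_inv hN X hz
  have h1 := cdf.contDiffAt_implicitFunction hm hinv
  have h2 := cdf.eventually_apply_implicitFunction hm hinv
  refine h1.congr_of_eventuallyEq ?_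
  have h3 : ∀ᶠ q : ℝ × E in 𝓝 ((0 : ℝ), z), |q.1| * K < 1 := by
    have h4 : Tendsto (fun q : ℝ × E => |q.1| * (K : ℝ)) (𝓝 ((0 : ℝ), z))
        (𝓝 (|(0 : ℝ)| * K)) :=
      ((continuous_abs.comp continuous_fst).mul continuous_const).tendsto ((0 : ℝ), z)
    exact h4.eventually (gt_mem_nhds (by simp))
  filter_upwards [h2, h3] with q hq hq2
  rw [Phi_seg] at hq
  exact Phi_unique X hK hq2 (Phi_seg hg q) hq

theorem analyticAt_small (hN : S_NEM) {X : C(E, E)} {K : NNReal} (hK : LipschitzWith K X)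
    {g : ℝ → E → E} (hg : IsFlowOf X g) {z : E} (hz : AnalyticAt ℝ X z) :
    AnalyticAt ℝ (fun p : ℝ × E => g p.1 p.2) ((0 : ℝ), z) := by
  have h1 := contDiffAt_seg0 hN hK hg hz
  have h2 : (fun p : ℝ × E => g p.1 p.2) =
      fun p => ContinuousMap.evalCLM ℝ (1 : unitInterval) (seg hg p) := by
    ext p
    rw [ContinuousMap.evalCLM_apply, seg_apply]
    simp
  rw [h2]
  refine ContDiffAt.analyticAt ?_
  exact ContDiffAt.comp _ (g := ContinuousMap.evalCLM ℝ (1 : unitInterval))
    (ContinuousLinearMap.contDiff _).contDiffAt h1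

theorem eventually_small (hN : S_NEM) {X : C(E, E)} {K : NNReal} (hK : LipschitzWith K X)
    {g : ℝ → E → E} (hg : IsFlowOf X g) {z : E} (hz : AnalyticAt ℝ X z) :
    ∀ᶠ q : ℝ × E in 𝓝 ((0 : ℝ), z), AnalyticAt ℝ (g q.1) q.2 := by
  filter_upwards [(analyticAt_small hN hK hg hz).eventually_analyticAt] with q hq
  have h1 : AnalyticAt ℝ (fun y : E => ((q.1, y) : ℝ × E)) q.2 :=
    analyticAt_const.prod analyticAt_id
  exact AnalyticAt.comp (g := fun p : ℝ × E => g p.1 p.2) (f := fun y : E => ((q.1, y) : ℝ × E))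
    hq h1

end

theorem t_AFL : S_NEM → S_AFL := by
  intro hN E _ _ _ X K g hK hg T z0 hT hX
  have h1 : ∀ t ∈ Icc (0 : ℝ) T, ∀ᶠ q : ℝ × ℝ in 𝓝 ((0 : ℝ), t),
      AnalyticAt ℝ (g q.1) (g q.2 z0) := by
    intro t ht
    have h2 := eventually_small hN hK hg (hX t ht)
    have h3 : Tendsto (fun q : ℝ × ℝ => (q.1, g q.2 z0)) (𝓝 ((0 : ℝ), t))
        (𝓝 ((0 : ℝ), g t z0)) := by
      have h4 : Continuous (fun q : ℝ × ℝ => (q.1, g q.2 z0)) :=
        continuous_fst.prodMk ((hg.continuous z0).comp continuous_snd)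
      exact h4.tendsto ((0 : ℝ), t)
    exact h3.eventually h2
  have h2 : ∀ᶠ τ : ℝ in 𝓝 0, ∀ t ∈ Icc (0 : ℝ) T, AnalyticAt ℝ (g τ) (g t z0) :=
    isCompact_Icc.eventually_forall_of_forall_eventually
      (P := fun τ t => AnalyticAt ℝ (g τ) (g t z0)) h1
  obtain ⟨δ, hδ, h3⟩ := Metric.eventually_nhds_iff.1 h2
  obtain ⟨k, hk⟩ := exists_nat_gt (T / δ)
  have hk0 : (0 : ℝ) < k := lt_of_le_of_lt (by positivity) hk
  set h : ℝ := T / k with hh
  have hh0 : 0 ≤ h := by positivity
  have hhδ : h < δ := by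
    rw [hh, div_lt_iff₀ hk0]
    rw [div_lt_iff₀ hδ] at hk
    linarith
  have key : ∀ j : ℕ, j ≤ k → AnalyticAt ℝ (g (j * h)) z0 := by
    intro j
    induction j with
    | zero =>
      intro _
      have h5 : g (((0 : ℕ) : ℝ) * h) = fun z => z := by
        funext z
        rw [Nat.cast_zero, zero_mul, hg.zero]
      rw [h5]
      exact analyticAt_id
    | succ j ih =>
      intro hj
      have h6 : (fun z => g (((j + 1 : ℕ) : ℝ) * h) z) = fun z => g h (g (j * h) z) := by
        funext z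
        rw [← hg.add hK]
        congr 1
        push_cast
        ring
      have h7 : (j : ℝ) * h ∈ Icc (0 : ℝ) T := by
        refine ⟨by positivity, ?_⟩
        have h8 : (j : ℝ) ≤ k := by exact_mod_cast (Nat.le_succ j).trans hj
        calc (j : ℝ) * h ≤ k * h := by gcongr
          _ = T := by rw [hh]; field_simp
      have h8 : AnalyticAt ℝ (g h) (g (j * h) z0) := by
        refine h3 ?_ _ h7
        rw [dist_zero_right, Real.norm_of_nonneg hh0]
        exact hhδ
      have h9 := AnalyticAt.comp (g := g h) (f := g (j * h)) h8 (ih (by omega))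
      have h10 : g (((j + 1 : ℕ) : ℝ) * h) = g h ∘ g (j * h) := h6
      rw [h10]
      exact h9
  have h4 := key k le_rfl
  have h5 : (k : ℝ) * h = T := by rw [hh]; field_simp
  rw [h5] at h4
  exact h4

end Pool.Agent.D0H17.BF
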